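import Pool.Agent.Helper84.SV.Defs

/-!
Project CX (MP_f22a19_gt): bounded cocycles on singular simplices from a covering.

`p : E → M` is a covering map, `G` acts on `E` by deck transformations, transitively on the fibres;
`Y` is a `G`-set, `s : E → Y` an equivariant map (not assumed continuous) and `F` a bounded
`G`-invariant cocycle on `Y`. Evaluating `F` on the vertices of a lift defines a bounded cocycle on
the singular simplices of `M`.
-/

open Pool.SV

set_option autoImplicit false

namespace Pool.Agent.Helper84.CX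

/-- The `i`-th vertex of the standard simplex. -/
noncomputable def vtx (q : ℕ) (i : Fin (q + 1)) : stdSimplex ℝ (Fin (q + 1)) :=
  stdSimplex.vertex i

theorem face_vtx (q : ℕ) (i : Fin (q + 2)) (j : Fin (q + 1)) :
    face q i (vtx q j) = vtx (q + 1) (i.succAbove j) :=
  stdSimplex.map_vertex _ _

/-- `G` acts on `E` by deck transformations of the covering map `p`, transitively on the
fibres. -/
structure Deck {E M : Type*} [TopologicalSpace E] [TopologicalSpace M] (p : E → M)
    (G : Type*) [Group G] [MulAction G E] : Prop where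
  cov : IsCoveringMap p
  surj : Function.Surjective p
  cont : ∀ g : G, Continuous (fun e : E => g • e)
  map : ∀ (g : G) (e : E), p (g • e) = p e
  trans : ∀ e e' : E, p e = p e' → ∃ g : G, g • e = e'

section

variable {E M : Type*} [TopologicalSpace E] [TopologicalSpace M] {p : E → M}

instance (q : ℕ) : LocallyPathConnectedSpace (stdSimplex ℝ (Fin (q + 1))) :=
  (convex_stdSimplex ℝ (Fin (q + 1))).locallyPathConnectedSpace

instance (q : ℕ) : ContractibleSpace (stdSimplex ℝ (Fin (q + 1))) :=
  (convex_stdSimplex ℝ (Fin (q + 1))).contractibleSpace ⟨_, single_mem_stdSimplex ℝ 0⟩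

/-- Singular simplices lift. -/
theorem exists_lift (hp : IsCoveringMap p) (hs : Function.Surjective p) {q : ℕ}
    (σ : Sing M q) : ∃ τ : Sing E q, ∀ x, p (τ x) = σ x := by
  obtain ⟨e, he⟩ := hs (σ (vtx q 0))
  obtain ⟨τ, ⟨-, h⟩, -⟩ := hp.existsUnique_continuousMap_lifts σ (a₀ := vtx q 0) (e₀ := e) he
  exact ⟨τ, fun x => congrFun h x⟩

/-- Two lifts differ by a deck transformation. -/
theorem lift_unique {G : Type*} [Group G] [MulAction G E] (h : Deck p G) {q : ℕ}
    (τ τ' : Sing E q) (hτ : ∀ x, p (τ x) = p (τ' x)) : ∃ g : G, ∀ x, g • τ x = τ' x := by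
  obtain ⟨g, hg⟩ := h.trans _ _ (hτ (vtx q 0))
  refine ⟨g, fun x => ?_⟩
  have := h.cov.eq_of_comp_eq (g₁ := fun x => g • τ x) (g₂ := fun x => τ' x)
    ((h.cont g).comp τ.continuous) τ'.continuous (by
      funext x
      simp only [Function.comp_apply, h.map, hτ]) (vtx q 0) hg
  exact congrFun this x

end

/-- **Bounded cocycles from a covering.** -/
theorem low {E M : Type*} [TopologicalSpace E] [TopologicalSpace M] {p : E → M}
    {G : Type*} [Group G] [MulAction G E] (h : Deck p G) (q : ℕ)
    {Y : Type*} [MulAction G Y] (s : E → Y) (hs : ∀ (g : G) (e : E), s (g • e) = g • s e)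
    (F : (Fin (q + 1) → Y) → ℝ) (hF : ∀ (g : G) (y : Fin (q + 1) → Y), F (fun i => g • y i) = F y)
    (C : ℝ) (hC : ∀ y, |F y| ≤ C)
    (hcoc : ∀ y : Fin (q + 2) → Y,
      ∑ i : Fin (q + 2), (-1 : ℝ) ^ (i : ℕ) * F (fun j => y (i.succAbove j)) = 0) :
    ∃ φ : Chain M q →ₗ[ℝ] ℝ, (∀ c, |φ c| ≤ C * nrm c) ∧
      (∀ y : Chain M (q + 1), φ (bd M q y) = 0) ∧
      ∀ (σ : Sing M q) (τ : Sing E q), (∀ x, p (τ x) = σ x) →
        φ (Finsupp.single σ 1) = F (fun i => s (τ (vtx q i))) := by
  classical
  choose lf hlf using fun (q : ℕ) (σ : Sing M q) => exists_lift h.cov h.surj σ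
  -- the value on a simplex
  let v : Sing M q → ℝ := fun σ => F (fun i => s (lf q σ (vtx q i)))
  have hv : ∀ (σ : Sing M q) (τ : Sing E q), (∀ x, p (τ x) = σ x) →
      v σ = F (fun i => s (τ (vtx q i))) := by
    intro σ τ hτ
    obtain ⟨g, hg⟩ := lift_unique h (lf q σ) τ (fun x => by rw [hlf, hτ])
    simp only [v]
    rw [← hF g]
    congr 1
    funext i
    rw [← hs, hg]
  refine ⟨Finsupp.linearCombination ℝ v, ?_, ?_, ?_⟩
  · intro c
    rw [Finsupp.linearCombination_apply, nrm, Finsupp.sum, Finsupp.sum, Finset.mul_sum]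
    refine (Finset.abs_sum_le_sum_abs _ _).trans (Finset.sum_le_sum fun σ _ => ?_)
    rw [smul_eq_mul, abs_mul, mul_comm]
    exact mul_le_mul_of_nonneg_right (hC _) (abs_nonneg _)
  · intro y
    induction y using Finsupp.induction_linear with
    | zero => simp
    | add a b ha hb => rw [map_add, map_add, ha, hb, add_zero]
    | single σ r =>
      unfold bd
      rw [Finsupp.linearCombination_single, map_smul, map_sum]
      have : (∑ i : Fin (q + 2), Finsupp.linearCombination ℝ v
          (((-1 : ℝ) ^ (i : ℕ)) • Finsupp.single (σ.comp (face q i)) (1 : ℝ))) = 0 := by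
        rw [← hcoc (fun i => s (lf (q + 1) σ (vtx (q + 1) i)))]
        refine Finset.sum_congr rfl fun i _ => ?_
        rw [map_smul, Finsupp.linearCombination_single, one_smul, smul_eq_mul]
        congr 1
        rw [hv (σ.comp (face q i)) ((lf (q + 1) σ).comp (face q i)) (fun x => by
          simp only [ContinuousMap.comp_apply, hlf])]
        simp only [ContinuousMap.comp_apply, face_vtx]
      rw [this, smul_zero]
  · intro σ τ hτ
    rw [Finsupp.linearCombination_single, one_smul, hv σ τ hτ]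

/-- The lower bound for the norm of the cycles homologous to `z`. -/
theorem nrm_ge {E M : Type*} [TopologicalSpace E] [TopologicalSpace M] {p : E → M}
    {G : Type*} [Group G] [MulAction G E] (h : Deck p G) (q : ℕ)
    {Y : Type*} [MulAction G Y] (s : E → Y) (hs : ∀ (g : G) (e : E), s (g • e) = g • s e)
    (F : (Fin (q + 1) → Y) → ℝ) (hF : ∀ (g : G) (y : Fin (q + 1) → Y), F (fun i => g • y i) = F y)
    (C : ℝ) (hC : ∀ y, |F y| ≤ C)
    (hcoc : ∀ y : Fin (q + 2) → Y,
      ∑ i : Fin (q + 2), (-1 : ℝ) ^ (i : ℕ) * F (fun j => y (i.succAbove j)) = 0)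
    {ι : Type*} (T : Finset ι) (ε : ι → ℝ) (τ : ι → Sing E q) (σ : ι → Sing M q)
    (hτ : ∀ t x, p (τ t x) = σ t x) (y : Chain M (q + 1)) :
    |∑ t ∈ T, ε t * F (fun i => s (τ t (vtx q i)))| ≤
      C * nrm ((∑ t ∈ T, Finsupp.single (σ t) (ε t) : Chain M q) + bd M q y) := by
  obtain ⟨φ, h1, h2, h3⟩ := low h q s hs F hF C hC hcoc
  have e : φ ((∑ t ∈ T, Finsupp.single (σ t) (ε t) : Chain M q) + bd M q y) =
      ∑ t ∈ T, ε t * F (fun i => s (τ t (vtx q i))) := by
    rw [map_add, h2, add_zero, map_sum]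
    refine Finset.sum_congr rfl fun t _ => ?_
    have : (Finsupp.single (σ t) (ε t) : Chain M q) = ε t • Finsupp.single (σ t) 1 := by
      rw [Finsupp.smul_single, smul_eq_mul, mul_one]
    rw [this, map_smul, smul_eq_mul, h3 (σ t) (τ t) (hτ t)]
  rw [← e]
  exact h1 _

end Pool.Agent.Helper84.CX
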